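import Mathlib
import Pool.Agent.R113.PercG

/-!
# MP_07f1b5_pr, Q1: approximate decorrelation of connection events in bond percolation

For every finite graph, all edge probabilities and all distinct vertices `a, b, c`,
`(P(abc) - P(ac) P(bc))^3 ≤ 54 P(ab|c)`.  Hence Q1 is true (with `δ = ε^3 / 54`).
-/

set_option autoImplicit false

open Finset

namespace Pool.Agent.Results.MP_07f1b5_pr.ApproximateDecorrelation

universe u

/-- a configuration is the finite set `ω` of open edges; `x` and `y` are connected if they lie in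
one connected component of the open subgraph -/
def Conn {V : Type u} (ω : Finset (Sym2 V)) (x y : V) : Prop :=
  (SimpleGraph.fromEdgeSet (ω : Set (Sym2 V))).Reachable x y

open Classical in
/-- the probability of the event `A` in Bernoulli bond percolation on the finite graph `G`: each
edge `e` is open with probability `p e`, independently (sum over all sets `ω` of edges of `G` in
`A` of the product of `p e` over the open edges and of `1 - p e` over the closed edges) -/
noncomputable def prob {V : Type u} [Finite V] (G : SimpleGraph V) (p : Sym2 V → ℝ)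
    (A : Finset (Sym2 V) → Prop) : ℝ :=
  ∑ ω ∈ (Set.toFinite G.edgeSet).toFinset.powerset,
    if A ω then (∏ e ∈ ω, p e) * ∏ e ∈ (Set.toFinite G.edgeSet).toFinset \ ω, (1 - p e) else 0

/-- `P(abc)` -/
noncomputable def Pabc {V : Type u} [Finite V] (G : SimpleGraph V) (p : Sym2 V → ℝ)
    (a b c : V) : ℝ := prob G p (fun ω => Conn ω a b ∧ Conn ω a c)

/-- `P(ab|c)` -/
noncomputable def PabSepC {V : Type u} [Finite V] (G : SimpleGraph V) (p : Sym2 V → ℝ)
    (a b c : V) : ℝ := prob G p (fun ω => Conn ω a b ∧ ¬ Conn ω a c)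

/-- `P(xy)` -/
noncomputable def Pconn {V : Type u} [Finite V] (G : SimpleGraph V) (p : Sym2 V → ℝ)
    (x y : V) : ℝ := prob G p (fun ω => Conn ω x y)

/-- **Q1, affirmative answer**, with an explicit estimate. -/
theorem result :
    (∀ (V : Type u) [Finite V] (G : SimpleGraph V) (p : Sym2 V → ℝ),
      (∀ e ∈ G.edgeSet, 0 ≤ p e ∧ p e ≤ 1) → ∀ a b c : V, a ≠ b → a ≠ c → b ≠ c →
        (Pabc G p a b c - Pconn G p a c * Pconn G p b c) ^ 3 ≤ 54 * PabSepC G p a b c) ∧
    (∀ ε : ℝ, 0 < ε → ∃ δ : ℝ, 0 < δ ∧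
      ∀ (V : Type u) [Finite V] (G : SimpleGraph V) (p : Sym2 V → ℝ),
        (∀ e ∈ G.edgeSet, 0 ≤ p e ∧ p e ≤ 1) → ∀ a b c : V, a ≠ b → a ≠ c → b ≠ c →
          PabSepC G p a b c < δ → Pabc G p a b c - Pconn G p a c * Pconn G p b c < ε) := by
  have h1 : ∀ (V : Type u) [Finite V] (G : SimpleGraph V) (p : Sym2 V → ℝ),
      (∀ e ∈ G.edgeSet, 0 ≤ p e ∧ p e ≤ 1) → ∀ a b c : V, a ≠ b → a ≠ c → b ≠ c →
        (Pabc G p a b c - Pconn G p a c * Pconn G p b c) ^ 3 ≤ 54 * PabSepC G p a b c := by
    intro V _ G p hp a b c _ _ _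
    haveI := Fintype.ofFinite V
    exact Pool.Agent.R113.PercG.main (Set.toFinite G.edgeSet).toFinset p
      (fun e he => hp e ((Set.Finite.mem_toFinset _).1 he)) a b c
  refine ⟨h1, ?_⟩
  intro ε hε
  refine ⟨ε ^ 3 / 54, by positivity, ?_⟩
  intro V _ G p hp a b c hab hac hbc hlt
  have h2 := h1 V G p hp a b c hab hac hbc
  by_contra hcon
  push Not at hcon
  have h3 : ε ^ 3 ≤ (Pabc G p a b c - Pconn G p a c * Pconn G p b c) ^ 3 :=
    pow_le_pow_left₀ hε.le hcon 3
  linarith

end Pool.Agent.Results.MP_07f1b5_pr.ApproximateDecorrelation
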